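import Pool.Agent.R540.ADDM.Main

/-!
# The approximate double description method is correct in every dimension

The definitions (states, steps, runs and correctness of ADDM) are in
`Pool.Agent.R540.ADDM.Defs`; they follow the problem word for word.

Idea of the proof: a mod 2 cycle of `d`-element subsets of the index sets `I(v)` is carried along,
such that the cones spanned by the corresponding rows cover a generic vector an odd number of
times. When row `i` is processed, the part of the cycle supported only by nodes of `V₊` is replaced
by the cone (with apex `i`) over its boundary; since all rows in `I(w) ∪ {i}`, `w ∈ V₊`, have
positive scalar product with `c(w)`, the parity does not change, and the combinatorial adjacency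
test provides all the sets needed. If `y` is a non-negative combination of the rows in `I(v)`, then
`y · c(v) ≥ max_P y`, so `P ⊆ conv c(V)`.
-/

namespace Pool.Agent.Results.MP_d4db3843_lc.CorrectEveryDimension

open Pool.Agent.R540.ADDM

/-- **ADDM is correct in every dimension `d ≥ 2`.** -/
theorem result : ∀ d : ℕ, 2 ≤ d → CorrectInDimension d :=
  fun d _ => correct d

end Pool.Agent.Results.MP_d4db3843_lc.CorrectEveryDimension
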